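import Pool.Agent.Run7.h873.RJP

set_option autoImplicit false

/-!
# MP_41b9a7_lc, Q1: a deterministic algorithm of ratio below 2 in the preemptive model

There is a deterministic online algorithm for scheduling with rejection on three machines whose
cost is at most `1.99` times the optimal preemptive cost, for every input.

The algorithm is the one of `NonpreemptiveBelowTwo` (library `Pool.Agent.K7.H50.RJ`); it never
preempts a job.  Its analysis uses only that an offline schedule of makespan `T` accepts jobs of
length at most `T` and of total length at most `3 T`.  Both hold for preemptive schedules: the
slots of one job, and the slots on one machine, are pairwise disjoint subintervals of `[0, T]`.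

Definitions (`Pool.Agent.K7.H50.RJ.Defs`): a slot `(i, a, b)` is the time interval from `a` to `b`
on machine `i`; `Feasible J n S` says that in the assignment `S` (`none` is rejection) every
accepted job `k < n` has finitely many slots with `0 ≤ a < b`, pairwise disjoint in time and of
total length `t_k`, and that slots of different jobs on the same machine are disjoint; `makespan`
is the least `T ≥ 0` such that all slots end by time `T`; `costP` is the makespan plus the
penalties of the rejected jobs; `OPTP` is the infimum of `costP` over all feasible schedules;
`decisions A J k = A [J 0, ..., J k]`; `CompetitiveP A c` says that for all sequences `J` and all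
`n` the schedule of `A` is feasible and costs at most `c * OPTP J n`.
-/

namespace Pool.Agent.Results.MP_41b9a7_lc.PreemptiveBelowTwo

open Pool.Agent.K7.H50.RJ

/-- Some deterministic online algorithm is `1.99`-competitive in the preemptive model. -/
theorem result : ∃ A : List Job → Option (Finset Slot), CompetitiveP A (199 / 100) :=
  ⟨Pool.Agent.Run7.h873.RJP.algP, Pool.Agent.Run7.h873.RJP.competitiveP_algP⟩

end Pool.Agent.Results.MP_41b9a7_lc.PreemptiveBelowTwo
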